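import Pool.Agent.X318.FranelSums

/-!
# `∑_{k<n} (3k+2) f_k^{(4)}` is divisible by `2 n`

The quotient is the sum of
`C(n-1,y) C(y,b) C(y+b,b) C(n+b,b) C(n,y+b+1)` over `0 ≤ b ≤ y < n`.
-/

set_option autoImplicit false

open Finset

namespace Pool.Agent.Results.MP_7c66d8_nt.FourthPowerSums

open Pool.Agent.X318.LineSum in
/-- The cube of a binomial coefficient. -/
lemma cube (y k : ℕ) : (k.choose y : ℤ) ^ 3 =
    ∑ b ∈ range (y + 1), (y.choose b : ℤ) * (y + b).choose b * U y b k := by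
  have h := congrArg (fun F : ℕ → ℤ => F k) (sq_mul_U y 0)
  rw [show (k.choose y : ℤ) ^ 3 = (k.choose y : ℤ) * k.choose y * U y 0 k by
    unfold U
    simp
    ring]
  rw [h, Finset.sum_apply]
  refine sum_congr rfl fun d _ => ?_
  rw [Finset.sum_apply, sum_range_succ]
  have h2 : ∑ e ∈ range d, (fun k : ℕ => (y.choose d : ℤ) * κ y 0 d e * U y (0 + e) k) k = 0 := by
    refine sum_eq_zero fun e he => ?_
    have he' := mem_range.1 he
    unfold κ
    rw [Nat.choose_eq_zero_of_lt (show 0 + e < d by omega)]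
    simp
  rw [h2, zero_add]
  unfold κ
  simp

/-- The sum of the fourth powers of the binomial coefficients `C(n,k)`, `0 ≤ k ≤ n`. -/
def f (n : ℕ) : ℕ := ∑ k ∈ range (n + 1), n.choose k ^ 4

/-- The weighted sum `S(n)`. -/
def S (n : ℕ) : ℕ := ∑ k ∈ range n, (3 * k + 2) * f k

/-- The quotient of `S(n)` by `2 n`. -/
def T (n : ℕ) : ℕ := ∑ y ∈ range n, ∑ b ∈ range (y + 1),
  (n - 1).choose y * y.choose b * (y + b).choose b * (n + b).choose b * n.choose (y + b + 1)

open Pool.Agent.X318.LineSum in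
lemma line (y m : ℕ) : ∑ k ∈ range (m + 1), (2 * (k : ℤ) - y + 1) * (k.choose y : ℤ) ^ 4 =
    (m + 1) * ∑ b ∈ range (y + 1), (m.choose y : ℤ) * y.choose b * (y + b).choose b *
      (m + 1 + b).choose b * (m + 1).choose (y + b + 1) := by
  have h1 : ∀ k ∈ range (m + 1), (2 * (k : ℤ) - y + 1) * (k.choose y : ℤ) ^ 4 =
      ∑ b ∈ range (y + 1), (y.choose b : ℤ) * (y + b).choose b *
        ((2 * (k : ℤ) - y + 1) * (k.choose y * U y b k)) := by
    intro k _
    rw [show (k.choose y : ℤ) ^ 4 = (k.choose y : ℤ) * (k.choose y : ℤ) ^ 3 by ring, cube, mul_sum,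
      mul_sum]
    refine sum_congr rfl fun b _ => ?_
    ring
  rw [sum_congr rfl h1, sum_comm, mul_sum]
  refine sum_congr rfl fun b _ => ?_
  rw [← mul_sum, even_sum]
  ring

/-- For all `n` the sum `S(n)` equals `2 n T(n)`; in particular `2 n` divides `S(n)`. -/
theorem result (n : ℕ) (_hn : 1 ≤ n) : 2 * n ∣ S n ∧ S n = 2 * n * T n := by
  have key : S n = 2 * n * T n := by
    obtain ⟨m, rfl⟩ : ∃ m, n = m + 1 := ⟨n - 1, by omega⟩
    have h1 := Pool.Agent.X318.LineSum.three_sum 4 (m + 1) (by norm_num)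
    have hs : ∀ k : ℕ, (-1 : ℤ) ^ (4 * k) = 1 := by
      intro k
      rw [pow_mul]
      norm_num
    simp_rw [hs, one_mul, line] at h1
    have h2 : ((S (m + 1) : ℕ) : ℤ) = ((2 * (m + 1) * T (m + 1) : ℕ) : ℤ) := by
      unfold S T f
      push_cast at h1 ⊢
      rw [h1, ← mul_sum, mul_assoc]
    exact_mod_cast h2
  exact ⟨⟨_, key⟩, key⟩

end Pool.Agent.Results.MP_7c66d8_nt.FourthPowerSums
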